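import Pool.Agent.W691.NoLurLinf
import Pool.Agent.W691.MBLinf

set_option autoImplicit false

/-!
# A Banach space with an extended M-basis and no equivalent locally uniformly convex norm

The space is the one of `Pool.Agent.W691.MBLinf`, a Banach space with an extended M-basis that
contains a copy of `ℓ^∞` (construction of helper687 for MP_810de6_an).  No equivalent norm on a space containing
`ℓ^∞` is locally uniformly convex (`Pool.Agent.W691.no_lur`).
-/

namespace Pool.Agent.Results.MP_ea77cd_an.MBasisWithoutLUR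

open Filter Topology

/-- Over `ℝ` and over `ℂ` there is a Banach space with an extended M-basis on which no equivalent
norm is locally uniformly convex. -/
theorem result (𝕜 : Type) [RCLike 𝕜] :
    ∃ (E : Type) (_ : NormedAddCommGroup E) (_ : NormedSpace 𝕜 E), CompleteSpace E ∧
      (∃ (I : Type) (x : I → E) (f : I → (E →L[𝕜] 𝕜)),
        (∀ i, f i (x i) = 1) ∧ (∀ i j, i ≠ j → f i (x j) = 0) ∧
        (Submodule.span 𝕜 (Set.range x)).topologicalClosure = ⊤ ∧
        (∀ v : E, (∀ i, f i v = 0) → v = 0)) ∧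
      ¬ ∃ N : Seminorm 𝕜 E,
        (∃ c C : ℝ, 0 < c ∧ 0 < C ∧ ∀ v : E, c * ‖v‖ ≤ N v ∧ N v ≤ C * ‖v‖) ∧
        (∀ (v : E) (u : ℕ → E), N v = 1 → (∀ n, N (u n) = 1) →
          Tendsto (fun n => N (u n + v)) atTop (𝓝 2) →
          Tendsto (fun n => N (u n - v)) atTop (𝓝 0)) := by
  obtain ⟨E, iE, iS, iC, I, x, G, ⟨hsp, f, ⟨hf1, hf2⟩, htot⟩, -, ⟨e⟩⟩ :=
    Pool.Agent.W691.MBLinf.exists_mbasis_linfty 𝕜
  refine ⟨E, iE, iS, iC, ⟨I, x, f, hf1, fun i j hij => hf2 j i hij.symm, hsp, htot⟩, ?_⟩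
  rintro ⟨N, ⟨c, C, hc, hC, hN⟩, hlur⟩
  let T : G →L[𝕜] Pool.Agent.W691.LI 𝕜 := e.toContinuousLinearMap
  let R : Pool.Agent.W691.LI 𝕜 →L[𝕜] G := e.symm.toContinuousLinearMap
  have hpos : 0 < ‖T‖ + 1 := by positivity
  refine Pool.Agent.W691.no_lur (G.subtypeL.comp R) (a := (‖T‖ + 1)⁻¹) (inv_pos.2 hpos)
    (fun z => ?_) N hc hN hlur
  have h1 : ‖z‖ ≤ ‖T‖ * ‖R z‖ := by
    have h2 := T.le_opNorm (R z)
    have h3 : T (R z) = z := e.apply_symm_apply z
    rwa [h3] at h2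
  have h4 : ‖(G.subtypeL.comp R) z‖ = ‖R z‖ := rfl
  rw [h4, inv_mul_le_iff₀ hpos]
  exact h1.trans (mul_le_mul_of_nonneg_right (by linarith) (norm_nonneg _))

end Pool.Agent.Results.MP_ea77cd_an.MBasisWithoutLUR
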